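import Pool.Agent.N23.KB.All

/-!
MP_75608d_al.  Almost every pair of conjugacy classes of the alternating group contains a uniformly
expanding pair of generators.

There is one `ε > 0` such that for all large `n` the following holds.  Let `T` be the set of the
elements of `A_n` with at most `n^(1/5)` cycles (fixed points counted).  Then the complement of `T`
has at most `|A_n| · 2^(-n^(1/6))` elements, and for ALL `x, y ∈ T` some conjugate `z` of `y`
(in the symmetric group) forms with `x` an `ε`-expanding pair of generators of `A_n`.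

So for a random pair `(x, y)` of `A_n × A_n` the pair of conjugacy classes of `x, y` contains a
uniformly expanding pair with probability at least `1 - 2 · 2^(-n^(1/6))`.

`KP23.cyc x` is the number of cycles of the permutation `x`, fixed points included.  `RC14.Alt`,
`RC14.walk` and `RC14.Expanding` are the definitions of the starting files: `Expanding ε x` says that
`x` generates the group and that `⟨f, P f⟩ ≤ (1 - ε) ⟨f, f⟩` for all real functions `f` of mean zero,
with `(P f)(g) = (1/2k) ∑_i (f(g x_i) + f(g x_i⁻¹))`.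
-/

namespace Pool.Agent.Results.MP_75608d_al.ExpandingConjugates
open RC14 Finset Filter Topology

theorem result :
    ∃ ε : ℝ, 0 < ε ∧ ∀ᶠ n : ℕ in atTop, ∃ T : Finset (Alt n),
      (∀ x : Alt n, x ∈ T ↔ (KP23.cyc (x : Equiv.Perm (Fin n)) : ℝ) ≤ (n : ℝ) ^ (1 / 5 : ℝ)) ∧
      (#Tᶜ : ℝ) ≤ (Fintype.card (Alt n) : ℝ) * (1 / 2) ^ ((n : ℝ) ^ (1 / 6 : ℝ)) ∧
      ∀ x ∈ T, ∀ y ∈ T, ∃ z : Alt n,
        IsConj (y : Equiv.Perm (Fin n)) (z : Equiv.Perm (Fin n)) ∧ Expanding ε ![x, z] :=
  KP23.BFIN

end Pool.Agent.Results.MP_75608d_al.ExpandingConjugates
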