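import Pool.Agent.N23.KP.All

/-!
MP_75608d_al.  Expanding pairs of generators of alternating groups.

For every `δ > 0` there is `ε > 0` such that, for all large `n`, every `x ∈ A_n` which moves at
least `δ n` points has at least `|A_n|^(1 - δ)` partners `y ∈ A_n` such that `{x^{±1}, y^{±1}}` is an
`ε`-expanding generating set of `A_n` (spectral gap of the walk with steps `x^{±1}, y^{±1}` at
least `ε`).

`RC14.Alt`, `RC14.walk` and `RC14.Expanding` are the definitions of the starting files:
`Expanding ε x` says that `x` generates the group and that `⟨f, P f⟩ ≤ (1 - ε) ⟨f, f⟩` for all real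
functions `f` of mean zero, with `(P f)(g) = (1/2k) ∑_i (f(g x_i) + f(g x_i⁻¹))`.
-/

namespace Pool.Agent.Results.MP_75608d_al.ExpandingPairs
open RC14 Finset Filter Topology

theorem result :
    ∀ δ : ℝ, 0 < δ → ∃ ε : ℝ, 0 < ε ∧ ∀ᶠ n : ℕ in atTop, ∀ x : Alt n,
      δ * n ≤ #(univ.filter fun i => (x : Equiv.Perm (Fin n)) i ≠ i) →
      (Fintype.card (Alt n) : ℝ) ^ (1 - δ) ≤ Nat.card {y : Alt n // Expanding ε ![x, y]} :=
  KP23.GOAL.1

end Pool.Agent.Results.MP_75608d_al.ExpandingPairs
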